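import Mathlib
import Pool.Agent.Lib.MP_d01a95_gt.Hyp

set_option autoImplicit false

open Metric Set Filter Topology

namespace Pool.Agent.MPd01a95.E0

section ball

variable {E : Type} [NormedAddCommGroup E] [InnerProductSpace ℂ E]

/-- Two points of the complex ball are at hyperbolic distance at most a constant. -/
def Near (C : ℝ) (a b : E) : Prop :=
  ‖1 - inner ℂ a b‖ ^ 2 ≤ C * ((1 - ‖a‖ ^ 2) * (1 - ‖b‖ ^ 2))

theorem near_symm {C : ℝ} {a b : E} (h : Near C a b) : Near C b a := by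
  unfold Near at h ⊢
  have h1 : (1 : ℂ) - inner ℂ b a = star (1 - inner ℂ a b) := by
    rw [star_sub, star_one]
    congr 1
    exact (inner_conj_symm b a).symm
  rw [h1, norm_star]
  linarith [h, mul_comm (1 - ‖a‖ ^ 2) (1 - ‖b‖ ^ 2), congrArg (fun t => C * t)
    (mul_comm (1 - ‖a‖ ^ 2) (1 - ‖b‖ ^ 2))]

theorem near_mono {C C' : ℝ} (hC : C ≤ C') {a b : E} (ha : ‖a‖ < 1) (hb : ‖b‖ < 1)
    (h : Near C a b) : Near C' a b := by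
  unfold Near at h ⊢
  refine h.trans (mul_le_mul_of_nonneg_right hC ?_)
  have h1 : ‖a‖ ^ 2 < 1 := by nlinarith [norm_nonneg a]
  have h2 : ‖b‖ ^ 2 < 1 := by nlinarith [norm_nonneg b]
  exact mul_nonneg (by linarith) (by linarith)

theorem one_sub_norm_le (a b : E) (ha : ‖a‖ ≤ 1) (hb : ‖b‖ ≤ 1) :
    1 - ‖a‖ ^ 2 ≤ 2 * ‖1 - inner ℂ a b‖ := by
  have h1 : ‖(1 : ℂ)‖ - ‖inner ℂ a b‖ ≤ ‖1 - inner ℂ a b‖ := norm_sub_norm_le _ _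
  rw [norm_one] at h1
  have h2 : ‖inner ℂ a b‖ ≤ ‖a‖ * ‖b‖ := norm_inner_le_norm a b
  nlinarith [norm_nonneg a, norm_nonneg b]

theorem near_trans {C1 C2 : ℝ} (h1 : 0 ≤ C1) (h2 : 0 ≤ C2) {a b c : E} (ha : ‖a‖ < 1)
    (hb : ‖b‖ < 1) (hc : ‖c‖ < 1) (hac : Near C1 a c) (hcb : Near C2 c b) :
    Near (256 * (C1 * C2)) a b := by
  have hca := near_symm hac
  unfold Near at hca hcb ⊢
  have ht := HypAux.ball_tri a b c ha.le hb.le hc.le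
  have e1 := one_sub_norm_le c a hc.le ha.le
  have e2 := one_sub_norm_le c b hc.le hb.le
  obtain ⟨A, hA⟩ : ∃ A, A = 1 - ‖a‖ ^ 2 := ⟨_, rfl⟩
  obtain ⟨B, hB⟩ : ∃ B, B = 1 - ‖b‖ ^ 2 := ⟨_, rfl⟩
  obtain ⟨D, hD⟩ : ∃ D, D = 1 - ‖c‖ ^ 2 := ⟨_, rfl⟩
  have hA0 : 0 < A := by rw [hA]; nlinarith [norm_nonneg a]
  have hB0 : 0 < B := by rw [hB]; nlinarith [norm_nonneg b]
  have hD0 : 0 < D := by rw [hD]; nlinarith [norm_nonneg c]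
  rw [← hA, ← hB]
  rw [← hD, ← hA] at hca
  rw [← hD, ← hB] at hcb
  rw [← hD] at e1 e2
  obtain ⟨p, hp⟩ : ∃ p, p = ‖1 - inner ℂ c a‖ := ⟨_, rfl⟩
  obtain ⟨q, hq⟩ : ∃ q, q = ‖1 - inner ℂ c b‖ := ⟨_, rfl⟩
  have hp0 : 0 ≤ p := by rw [hp]; exact norm_nonneg _
  have hq0 : 0 ≤ q := by rw [hq]; exact norm_nonneg _
  rw [← hp] at hca e1 ht
  rw [← hq] at hcb e2 ht
  have f1 : D ^ 2 ≤ 4 * (C1 * (D * A)) := by nlinarith
  have f2 : D ^ 2 ≤ 4 * (C2 * (D * B)) := by nlinarith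
  have f3 : D ≤ 4 * (C1 * A) := by
    by_contra h; push Not at h
    have : D * (4 * (C1 * A)) < D * D := by nlinarith
    nlinarith
  have f4 : D ≤ 4 * (C2 * B) := by
    by_contra h; push Not at h
    have : D * (4 * (C2 * B)) < D * D := by nlinarith
    nlinarith
  have f5 : p ^ 2 ≤ 4 * (C1 * C2 * (A * B)) := by
    have : C1 * (D * A) ≤ C1 * (4 * (C2 * B) * A) :=
      mul_le_mul_of_nonneg_left (mul_le_mul_of_nonneg_right f4 hA0.le) h1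
    nlinarith
  have f6 : q ^ 2 ≤ 4 * (C1 * C2 * (A * B)) := by
    have : C2 * (D * B) ≤ C2 * (4 * (C1 * A) * B) :=
      mul_le_mul_of_nonneg_left (mul_le_mul_of_nonneg_right f3 hB0.le) h2
    nlinarith
  have f7 : ‖1 - inner ℂ a b‖ ^ 2 ≤ (4 * (p + q)) ^ 2 :=
    pow_le_pow_left₀ (norm_nonneg _) ht 2
  nlinarith [sq_nonneg (p - q)]

theorem near_convex {C : ℝ} (hC : 0 ≤ C) (z : E) (hz : ‖z‖ < 1) :
    Convex ℝ {w : E | Near C z w} := by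
  intro w1 h1 w2 h2 s t hs ht hst
  simp only [mem_ofPred_eq, Near] at h1 h2 ⊢
  have e1 : (1 : ℂ) - inner ℂ z (s • w1 + t • w2) =
      (s : ℂ) * (1 - inner ℂ z w1) + (t : ℂ) * (1 - inner ℂ z w2) := by
    rw [inner_add_right]
    have e2 : inner ℂ z (s • w1) = (s : ℂ) * inner ℂ z w1 := by
      rw [← inner_smul_right]; rfl
    have e3 : inner ℂ z (t • w2) = (t : ℂ) * inner ℂ z w2 := by
      rw [← inner_smul_right]; rfl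
    rw [e2, e3]
    have e4 : ((s : ℂ) + (t : ℂ)) = 1 := by exact_mod_cast hst
    linear_combination (1 : ℂ) * (-e4)
  have e5 : ‖(1 : ℂ) - inner ℂ z (s • w1 + t • w2)‖ ≤
      s * ‖1 - inner ℂ z w1‖ + t * ‖1 - inner ℂ z w2‖ := by
    rw [e1]
    refine (norm_add_le _ _).trans ?_
    rw [norm_mul, norm_mul, Complex.norm_real, Complex.norm_real, Real.norm_of_nonneg hs,
      Real.norm_of_nonneg ht]
  have e6 : ‖s • w1 + t • w2‖ ≤ s * ‖w1‖ + t * ‖w2‖ := by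
    refine (norm_add_le _ _).trans ?_
    rw [norm_smul, norm_smul, Real.norm_of_nonneg hs, Real.norm_of_nonneg ht]
  have conv : ∀ x y : ℝ, (s * x + t * y) ^ 2 ≤ s * x ^ 2 + t * y ^ 2 := by
    intro x y
    have ht1 : t = 1 - s := by linarith
    subst ht1
    nlinarith [mul_nonneg hs ht, sq_nonneg (x - y), mul_nonneg (mul_nonneg hs ht)
      (sq_nonneg (x - y))]
  have e7 : ‖(1 : ℂ) - inner ℂ z (s • w1 + t • w2)‖ ^ 2 ≤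
      s * ‖1 - inner ℂ z w1‖ ^ 2 + t * ‖1 - inner ℂ z w2‖ ^ 2 :=
    (pow_le_pow_left₀ (norm_nonneg _) e5 2).trans (conv _ _)
  have e8 : ‖s • w1 + t • w2‖ ^ 2 ≤ s * ‖w1‖ ^ 2 + t * ‖w2‖ ^ 2 :=
    (pow_le_pow_left₀ (norm_nonneg _) e6 2).trans (conv _ _)
  have hz2 : 0 < 1 - ‖z‖ ^ 2 := by nlinarith [norm_nonneg z]
  obtain ⟨K, hK⟩ : ∃ K, K = C * (1 - ‖z‖ ^ 2) := ⟨_, rfl⟩
  have hK0 : 0 ≤ K := by rw [hK]; positivity
  have g1 : ‖1 - inner ℂ z w1‖ ^ 2 ≤ K * (1 - ‖w1‖ ^ 2) := by rw [hK]; linarith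
  have g2 : ‖1 - inner ℂ z w2‖ ^ 2 ≤ K * (1 - ‖w2‖ ^ 2) := by rw [hK]; linarith
  have g3 : K * (s * ‖w1‖ ^ 2 + t * ‖w2‖ ^ 2) ≥ K * ‖s • w1 + t • w2‖ ^ 2 :=
    mul_le_mul_of_nonneg_left e8 hK0
  have g4 : s * ‖1 - inner ℂ z w1‖ ^ 2 ≤ s * (K * (1 - ‖w1‖ ^ 2)) :=
    mul_le_mul_of_nonneg_left g1 hs
  have g5 : t * ‖1 - inner ℂ z w2‖ ^ 2 ≤ t * (K * (1 - ‖w2‖ ^ 2)) :=
    mul_le_mul_of_nonneg_left g2 ht
  have g6 : s * (K * (1 - ‖w1‖ ^ 2)) + t * (K * (1 - ‖w2‖ ^ 2)) =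
      K * (1 - (s * ‖w1‖ ^ 2 + t * ‖w2‖ ^ 2)) := by
    have ht1 : t = 1 - s := by linarith
    subst ht1
    ring
  calc ‖(1 : ℂ) - inner ℂ z (s • w1 + t • w2)‖ ^ 2
      ≤ K * (1 - (s * ‖w1‖ ^ 2 + t * ‖w2‖ ^ 2)) := by linarith
    _ ≤ K * (1 - ‖s • w1 + t • w2‖ ^ 2) := by nlinarith
    _ = C * ((1 - ‖z‖ ^ 2) * (1 - ‖s • w1 + t • w2‖ ^ 2)) := by rw [hK]; ring

theorem near_lt_one {C : ℝ} (hC : 0 < C) {z w : E} (hz : ‖z‖ < 1) (h : Near C z w) :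
    ‖w‖ < 1 := by
  by_contra hw
  push Not at hw
  unfold Near at h
  have hz2 : 0 < 1 - ‖z‖ ^ 2 := by nlinarith [norm_nonneg z]
  have h1 : (1 - ‖z‖ ^ 2) * (1 - ‖w‖ ^ 2) ≤ 0 := by
    apply mul_nonpos_of_nonneg_of_nonpos hz2.le
    nlinarith
  have h2 : ‖1 - inner ℂ z w‖ ^ 2 ≤ 0 := h.trans (mul_nonpos_of_nonneg_of_nonpos hC.le h1)
  have h3 : ‖w‖ = 1 := by
    by_contra hne
    have h4 : 1 < ‖w‖ := lt_of_le_of_ne hw (Ne.symm hne)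
    have h5 : (1 - ‖z‖ ^ 2) * (1 - ‖w‖ ^ 2) < 0 := by
      apply mul_neg_of_pos_of_neg hz2
      nlinarith
    have h6 : C * ((1 - ‖z‖ ^ 2) * (1 - ‖w‖ ^ 2)) < 0 := mul_neg_of_pos_of_neg hC h5
    nlinarith [sq_nonneg ‖1 - inner ℂ z w‖]
  have h7 : ‖(1 : ℂ)‖ - ‖inner ℂ z w‖ ≤ ‖1 - inner ℂ z w‖ := norm_sub_norm_le _ _
  rw [norm_one] at h7
  have h8 : ‖inner ℂ z w‖ ≤ ‖z‖ * ‖w‖ := norm_inner_le_norm z w
  rw [h3, mul_one] at h8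
  have h9 : 0 < ‖1 - inner ℂ z w‖ := by linarith
  nlinarith

theorem near_close {C : ℝ} {z w : E} (hz : ‖z‖ < 1) (hw : ‖w‖ < 1)
    (h : Near C z w) (hC : 0 ≤ C) : ‖w - z‖ ^ 4 ≤ 4 * C * (1 - ‖z‖ ^ 2) := by
  unfold Near at h
  have h1 : ‖w - z‖ ^ 2 = ‖w‖ ^ 2 - 2 * (inner ℂ w z).re + ‖z‖ ^ 2 := by
    have := @norm_sub_sq ℂ E _ _ _ w z
    simpa using this
  have h2 : (inner ℂ w z).re = (inner ℂ z w).re := by
    rw [← inner_conj_symm, Complex.conj_re]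
  have h3 : (1 - inner ℂ z w : ℂ).re ≤ ‖1 - inner ℂ z w‖ := Complex.re_le_norm _
  rw [Complex.sub_re, Complex.one_re] at h3
  have hz2 : 0 < 1 - ‖z‖ ^ 2 := by nlinarith [norm_nonneg z]
  have hw2 : 0 < 1 - ‖w‖ ^ 2 := by nlinarith [norm_nonneg w]
  have h4 : ‖w - z‖ ^ 2 ≤ 2 * ‖1 - inner ℂ z w‖ := by
    rw [h1, h2]; linarith
  have h5 : (‖w - z‖ ^ 2) ^ 2 ≤ (2 * ‖1 - inner ℂ z w‖) ^ 2 :=
    pow_le_pow_left₀ (sq_nonneg _) h4 2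
  have h6 : C * ((1 - ‖z‖ ^ 2) * (1 - ‖w‖ ^ 2)) ≤ C * ((1 - ‖z‖ ^ 2) * 1) := by
    apply mul_le_mul_of_nonneg_left _ hC
    apply mul_le_mul_of_nonneg_left _ hz2.le
    nlinarith [sq_nonneg ‖w‖]
  nlinarith

theorem near_bound {C : ℝ} (a : E) (ha : ‖a‖ < 1) :
    ∃ r < 1, ∀ z : E, ‖z‖ < 1 → Near C a z → ‖z‖ ≤ r := by
  have ha2 : 0 < 1 - ‖a‖ ^ 2 := by nlinarith [norm_nonneg a]
  obtain ⟨D, hD⟩ : ∃ D, D = max C 1 := ⟨_, rfl⟩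
  have hD1 : 1 ≤ D := by rw [hD]; exact le_max_right _ _
  have hDC : C ≤ D := by rw [hD]; exact le_max_left _ _
  refine ⟨1 - (1 - ‖a‖) ^ 2 / (2 * D), ?_, ?_⟩
  · have : 0 < (1 - ‖a‖) ^ 2 / (2 * D) := by
      apply div_pos (pow_pos (by linarith) 2) (by linarith)
    linarith
  · intro z hz h
    have h' := near_mono hDC ha hz h
    unfold Near at h'
    have h7 : ‖(1 : ℂ)‖ - ‖inner ℂ a z‖ ≤ ‖1 - inner ℂ a z‖ := norm_sub_norm_le _ _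
    rw [norm_one] at h7
    have h8 : ‖inner ℂ a z‖ ≤ ‖a‖ * ‖z‖ := norm_inner_le_norm a z
    have h9 : 1 - ‖a‖ ≤ ‖1 - inner ℂ a z‖ := by nlinarith [norm_nonneg a]
    have h10 : (1 - ‖a‖) ^ 2 ≤ ‖1 - inner ℂ a z‖ ^ 2 := pow_le_pow_left₀ (by linarith) h9 2
    have hz2 : 0 < 1 - ‖z‖ ^ 2 := by nlinarith [norm_nonneg z]
    have h11 : D * ((1 - ‖a‖ ^ 2) * (1 - ‖z‖ ^ 2)) ≤ D * (1 * (2 * (1 - ‖z‖))) := by
      apply mul_le_mul_of_nonneg_left _ (by linarith)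
      apply mul_le_mul _ _ hz2.le zero_le_one
      · nlinarith [sq_nonneg ‖a‖]
      · nlinarith [norm_nonneg z]
    have h12 : (1 - ‖a‖) ^ 2 / (2 * D) ≤ 1 - ‖z‖ := by
      rw [div_le_iff₀ (by linarith)]
      nlinarith
    linarith

theorem near_open {C C' : ℝ} (hC : C < C') (a z : E) (ha : ‖a‖ < 1) (hz : ‖z‖ < 1)
    (h : Near C a z) : ∀ᶠ w in 𝓝 z, Near C' a w := by
  have h1 : Continuous fun w : E => ‖1 - inner ℂ a w‖ ^ 2 := by fun_prop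
  have h2 : Continuous fun w : E => C' * ((1 - ‖a‖ ^ 2) * (1 - ‖w‖ ^ 2)) := by fun_prop
  have h3 : ‖1 - inner ℂ a z‖ ^ 2 < C' * ((1 - ‖a‖ ^ 2) * (1 - ‖z‖ ^ 2)) := by
    unfold Near at h
    have ha2 : 0 < 1 - ‖a‖ ^ 2 := by nlinarith [norm_nonneg a]
    have hz2 : 0 < 1 - ‖z‖ ^ 2 := by nlinarith [norm_nonneg z]
    have := mul_lt_mul_of_pos_right hC (mul_pos ha2 hz2)
    linarith
  filter_upwards [(h1.continuousAt.eventually_lt h2.continuousAt h3)] with w hw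
  exact hw.le

end ball

end Pool.Agent.MPd01a95.E0
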