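import Mathlib
import Pool.Agent.Lib.MP_d01a95_gt_P.E0Ball
import Pool.Agent.Lib.MP_d01a95_gt.PropA

set_option autoImplicit false

open Matrix Metric Set Filter Topology

namespace Pool.Agent.MPd01a95.E0

/-- Sum of the squares of the coordinates. -/
def sq {α : Type} [Fintype α] (x : α → ℝ) : ℝ := ∑ i, x i ^ 2

section lin

variable {α β : Type} [Fintype α] [Fintype β]

theorem sq_nn (x : α → ℝ) : 0 ≤ sq x := Finset.sum_nonneg fun _ _ => sq_nonneg _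

theorem sq_smul (s : ℝ) (x : α → ℝ) : sq (s • x) = s ^ 2 * sq x := by
  simp [sq, mul_pow, Finset.mul_sum]

theorem sq_mulVec_le (A : Matrix α β ℝ) (x : β → ℝ) :
    sq (A *ᵥ x) ≤ (∑ i, ∑ j, A i j ^ 2) * sq x := by
  unfold sq
  rw [Finset.sum_mul]
  refine Finset.sum_le_sum fun i _ => ?_
  exact Finset.sum_mul_sq_le_sq_mul_sq _ _ _

theorem sq_conv (s t : ℝ) (hs : 0 ≤ s) (ht : 0 ≤ t) (hst : s + t = 1) (x y : α → ℝ) :
    sq (s • x + t • y) ≤ s * sq x + t * sq y := by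
  unfold sq
  rw [Finset.mul_sum, Finset.mul_sum, ← Finset.sum_add_distrib]
  refine Finset.sum_le_sum fun i _ => ?_
  simp only [Pi.add_apply, Pi.smul_apply, smul_eq_mul]
  have ht1 : t = 1 - s := by linarith
  subst ht1
  nlinarith [mul_nonneg (mul_nonneg hs ht) (sq_nonneg (x i - y i))]

theorem abs_le_sq (x : α → ℝ) (i : α) : |x i| ≤ Real.sqrt (sq x) := by
  rw [← Real.sqrt_sq_eq_abs]
  exact Real.sqrt_le_sqrt (Finset.single_le_sum (f := fun i => x i ^ 2)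
    (fun i _ => sq_nonneg _) (Finset.mem_univ i))

theorem sq_le_of_abs (x : α → ℝ) (M : ℝ) (h : ∀ i, |x i| ≤ M) :
    sq x ≤ Fintype.card α * M ^ 2 := by
  unfold sq
  have h1 : ∑ i, x i ^ 2 ≤ ∑ _i : α, M ^ 2 := Finset.sum_le_sum fun i _ => by
    rw [← sq_abs]
    exact pow_le_pow_left₀ (abs_nonneg _) (h i) 2
  simpa using h1

theorem continuous_sq : Continuous (sq : (α → ℝ) → ℝ) := by
  unfold sq
  fun_prop

end lin

section sel

variable {ι : Type} [Fintype ι] {G : Type}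

theorem nq_elim (v : ι → ℝ) (w : Fin 2 → ℝ) : nq (Sum.elim v w) = sq w - sq v := by
  simp [nq, sq]

theorem sq_elim (v : ι → ℝ) (w : Fin 2 → ℝ) : sq (Sum.elim v w) = sq v + sq w := by
  simp [sq, Fintype.sum_sum_type]

variable [DecidableEq ι] [Group G]

/-- The image of the standard negative plane under an isometry is a graph. -/
theorem graph (A : Matrix (ι ⊕ Fin 2) (ι ⊕ Fin 2) ℝ) (hA : Aᵀ * J ι * A = J ι) :
    ∃ T : Matrix ι (Fin 2) ℝ, ∀ w : Fin 2 → ℝ, ∃ w' : Fin 2 → ℝ,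
      Sum.elim (T *ᵥ w) w = A *ᵥ Sum.elim 0 w' := by
  have hsplit : ∀ w' : Fin 2 → ℝ, A *ᵥ Sum.elim 0 w' =
      Sum.elim (A.toBlocks₁₂ *ᵥ w') (A.toBlocks₂₂ *ᵥ w') := by
    intro w'
    conv_lhs => rw [← Matrix.fromBlocks_toBlocks A]
    rw [Matrix.fromBlocks_mulVec]
    simp
  have hinj : ∀ w' : Fin 2 → ℝ, A.toBlocks₂₂ *ᵥ w' = 0 → w' = 0 := by
    intro w' h0
    have h1 := PropAAux.nq_mulVec A hA (Sum.elim 0 w')
    rw [hsplit, nq_elim, nq_elim, h0] at h1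
    have h2 := sq_nn (A.toBlocks₁₂ *ᵥ w')
    have h3 : sq (0 : Fin 2 → ℝ) = 0 := by simp [sq]
    have h3' : sq (0 : ι → ℝ) = 0 := by simp [sq]
    have h4 := sq_nn w'
    have h5 : sq w' = 0 := by linarith
    funext i
    have h6 := abs_le_sq w' i
    rw [h5, Real.sqrt_zero] at h6
    exact abs_nonpos_iff.1 h6
  have hdet : IsUnit A.toBlocks₂₂.det := by
    rw [isUnit_iff_ne_zero]
    intro h0
    obtain ⟨v, hv, hv2⟩ := Matrix.exists_mulVec_eq_zero_iff.2 h0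
    exact hv (hinj v hv2)
  refine ⟨A.toBlocks₁₂ * A.toBlocks₂₂⁻¹, fun w => ⟨A.toBlocks₂₂⁻¹ *ᵥ w, ?_⟩⟩
  rw [hsplit, Matrix.mulVec_mulVec, Matrix.mulVec_mulVec, Matrix.mul_nonsing_inv _ hdet,
    Matrix.one_mulVec]

variable {E : Type} [NormedAddCommGroup E] [InnerProductSpace ℂ E]

theorem exists_T (ρ : G →* Matrix (ι ⊕ Fin 2) (ι ⊕ Fin 2) ℝ)
    (hρ : ∀ g, (ρ g)ᵀ * J ι * ρ g = J ι) (zz : G → E) (hz : ∀ g, ‖zz g‖ < 1)
    (hA : ∀ C : ℝ, {h : G | ∃ g, Near C (zz g) (zz (g * h))}.Finite) (C0 : ℝ) (hC0 : 0 < C0)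
    (hcov : ∀ z : E, ‖z‖ < 1 → ∃ g, Near C0 (zz g) z) :
    ∃ C1 : ℝ, 0 < C1 ∧ ∃ T : E → Matrix ι (Fin 2) ℝ, ContinuousOn T (ball 0 1) ∧
      ∀ z, ‖z‖ < 1 → ∀ g, Near C0 (zz g) z → ∀ w : Fin 2 → ℝ,
        sq (ρ g⁻¹ *ᵥ Sum.elim (T z *ᵥ w) w) ≤ C1 * nq (Sum.elim (T z *ᵥ w) w) := by
  classical
  obtain ⟨S, hS⟩ : ∃ S : Set G, S = {h : G | ∃ g, Near (256 * (C0 * (C0 + 1))) (zz g)
      (zz (g * h))} := ⟨_, rfl⟩
  have hSf : S.Finite := by rw [hS]; exact hA _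
  obtain ⟨C1, hC1, hC1b⟩ : ∃ C1 : ℝ, 0 < C1 ∧ ∀ h ∈ S, (∑ i, ∑ j, ρ h i j ^ 2) ≤ C1 := by
    have hb := (hSf.image fun h => ∑ i, ∑ j, ρ h i j ^ 2).bddAbove
    obtain ⟨b, hb⟩ := hb
    refine ⟨max b 1, lt_of_lt_of_le zero_lt_one (le_max_right _ _), fun h hh => ?_⟩
    exact (hb ⟨h, hh, rfl⟩).trans (le_max_left _ _)
  refine ⟨C1, hC1, ?_⟩
  obtain ⟨t, ht⟩ : ∃ t : ball (0 : E) 1 → Set (Matrix ι (Fin 2) ℝ),
      t = fun z : ball (0 : E) 1 => {T | ∀ g, Near C0 (zz g) (z : E) → ∀ w : Fin 2 → ℝ,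
        sq (ρ g⁻¹ *ᵥ Sum.elim (T *ᵥ w) w) ≤ C1 * nq (Sum.elim (T *ᵥ w) w)} := ⟨_, rfl⟩
  have hconv : ∀ z, Convex ℝ (t z) := by
    intro z T1 h1 T2 h2 a b ha hb hab
    rw [ht] at h1 h2 ⊢
    intro g hg w
    have k1 := h1 g hg w
    have k2 := h2 g hg w
    rw [nq_elim] at k1 k2 ⊢
    have e1 : Sum.elim ((a • T1 + b • T2) *ᵥ w) w =
        a • Sum.elim (T1 *ᵥ w) w + b • Sum.elim (T2 *ᵥ w) w := by
      have hw : w = a • w + b • w := by rw [← add_smul, hab, one_smul]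
      funext i
      rcases i with i | i
      · simp [Matrix.add_mulVec, Matrix.smul_mulVec]
      · simp only [Sum.elim_inr, Pi.add_apply, Pi.smul_apply]
        exact congrFun hw i
    have e2 : (a • T1 + b • T2) *ᵥ w = a • (T1 *ᵥ w) + b • (T2 *ᵥ w) := by
      simp [Matrix.add_mulVec, Matrix.smul_mulVec]
    rw [e1, Matrix.mulVec_add, Matrix.mulVec_smul, Matrix.mulVec_smul, e2]
    have k3 := sq_conv a b ha hb hab (ρ g⁻¹ *ᵥ Sum.elim (T1 *ᵥ w) w)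
      (ρ g⁻¹ *ᵥ Sum.elim (T2 *ᵥ w) w)
    have k4 := mul_le_mul_of_nonneg_left (sq_conv a b ha hb hab (T1 *ᵥ w) (T2 *ᵥ w)) hC1.le
    have k5 := mul_le_mul_of_nonneg_left k1 ha
    have k6 := mul_le_mul_of_nonneg_left k2 hb
    have k7 : a * (C1 * (sq w - sq (T1 *ᵥ w))) + b * (C1 * (sq w - sq (T2 *ᵥ w))) =
        C1 * sq w - C1 * (a * sq (T1 *ᵥ w) + b * sq (T2 *ᵥ w)) := by
      have hb1 : b = 1 - a := by linarith
      subst hb1
      ring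
    linarith
  have hloc : ∀ z : ball (0 : E) 1, ∃ c : Matrix ι (Fin 2) ℝ, ∀ᶠ y in 𝓝 z, c ∈ t y := by
    intro z
    have hz1 : ‖(z : E)‖ < 1 := mem_ball_zero_iff.1 z.2
    obtain ⟨g1, hg1⟩ := hcov z hz1
    obtain ⟨T1, hT1⟩ := graph (ρ g1) (hρ g1)
    refine ⟨T1, ?_⟩
    have h1 : ∀ᶠ w in 𝓝 (z : E), Near (C0 + 1) (zz g1) w :=
      near_open (by linarith) _ _ (hz g1) hz1 hg1
    have h2 : ∀ᶠ y : ball (0 : E) 1 in 𝓝 z, Near (C0 + 1) (zz g1) (y : E) :=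
      continuous_subtype_val.continuousAt.eventually h1
    filter_upwards [h2] with y hy
    have hy1 : ‖(y : E)‖ < 1 := mem_ball_zero_iff.1 y.2
    rw [ht]
    intro g hg w
    obtain ⟨w', hw'⟩ := hT1 w
    have h3 : g⁻¹ * g1 ∈ S := by
      rw [hS]
      refine ⟨g, ?_⟩
      rw [mul_inv_cancel_left]
      exact near_trans hC0.le (by linarith) (hz g) (hz g1) hy1 hg (near_symm hy)
    rw [hw', PropAAux.nq_mulVec _ (hρ g1), nq_elim, Matrix.mulVec_mulVec, ← map_mul]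
    refine (sq_mulVec_le _ _).trans ?_
    have h5 : sq (0 : ι → ℝ) = 0 := by simp [sq]
    rw [sq_elim, h5, zero_add, sub_zero]
    exact mul_le_mul_of_nonneg_right (hC1b _ h3) (sq_nn _)
  obtain ⟨T', hT'⟩ := exists_continuous_forall_mem_convex_of_local_const hconv hloc
  refine ⟨fun z => if h : z ∈ ball (0 : E) 1 then T' ⟨z, h⟩ else 0, ?_, ?_⟩
  · rw [continuousOn_iff_continuous_domRestrict]
    refine T'.continuous.congr ?_
    intro z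
    show T' z = _
    rw [Set.domRestrict_apply, dif_pos z.2]
  · intro z hz1 g hg w
    have hzm : z ∈ ball (0 : E) 1 := by simpa using hz1
    have h6 := hT' ⟨z, hzm⟩
    rw [ht] at h6
    simp only [dif_pos hzm]
    exact h6 g hg w

end sel

end Pool.Agent.MPd01a95.E0
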