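import Mathlib
import Pool.Agent.Lib.Brouwer.BrSm

set_option autoImplicit false

open MeasureTheory Metric Set Filter Topology

namespace Pool.Agent.MPd01a95.E0

section top

variable {E V : Type} [NormedAddCommGroup E] [InnerProductSpace ℝ E] [FiniteDimensional ℝ E]
  [NormedAddCommGroup V] [NormedSpace ℝ V] [FiniteDimensional ℝ V]

/-- A continuous self map which is the identity outside the unit ball hits every point of
the open unit ball. -/
theorem hits (h : E → E) (hc : Continuous h) (h1 : ∀ z, 1 ≤ ‖z‖ → h z = z) (w : E)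
    (hw : ‖w‖ < 1) : ∃ z, h z = w := by
  by_contra hcon
  push Not at hcon
  obtain ⟨d, hd⟩ : ∃ d, d = Module.finrank ℝ E := ⟨_, rfl⟩
  obtain ⟨e⟩ : Nonempty (E ≃ₗᵢ[ℝ] EuclideanSpace ℝ (Fin d)) :=
    ⟨((stdOrthonormalBasis ℝ E).reindex (finCongr hd.symm)).repr⟩
  obtain ⟨H, hH⟩ : ∃ H : E → E, H = fun z => h (z + w) - w := ⟨_, rfl⟩
  have hHc : Continuous H := by rw [hH]; fun_prop
  have hH0 : ∀ z, H z ≠ 0 := by
    intro z
    rw [hH]
    exact sub_ne_zero.2 (hcon _)
  have hH1 : ∀ z, ‖z‖ = 2 → H z = z := by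
    intro z hz
    rw [hH]
    have h2 : 1 ≤ ‖z + w‖ := by
      have h3 := norm_sub_le (z + w) w
      rw [add_sub_cancel_right] at h3
      linarith
    show h (z + w) - w = z
    rw [h1 _ h2, add_sub_cancel_right]
  obtain ⟨r, hr⟩ : ∃ r : EuclideanSpace ℝ (Fin d) → EuclideanSpace ℝ (Fin d),
      r = fun x => e ((‖H (e.symm ((2 : ℝ) • x))‖)⁻¹ • H (e.symm ((2 : ℝ) • x))) := ⟨_, rfl⟩
  refine Pool.Agent.Lib.Brouwer.no_retraction d r ?_ ?_ ?_
  · rw [hr]
    refine e.continuous.comp ?_
    have h4 : Continuous fun x => H (e.symm ((2 : ℝ) • x)) :=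
      hHc.comp (e.symm.continuous.comp (continuous_const_smul (2 : ℝ)))
    exact (h4.norm.inv₀ fun x => norm_ne_zero_iff.2 (hH0 _)).smul h4
  · intro x hx
    rw [hr]
    have h5 : ‖e.symm ((2 : ℝ) • x)‖ = 2 := by
      rw [LinearIsometryEquiv.norm_map, norm_smul, hx]; norm_num
    show e ((‖H (e.symm ((2 : ℝ) • x))‖)⁻¹ • H (e.symm ((2 : ℝ) • x))) = x
    rw [hH1 _ h5, h5, map_smul, e.apply_symm_apply, smul_smul]
    norm_num
  · intro x _
    rw [hr]
    show ‖e ((‖H (e.symm ((2 : ℝ) • x))‖)⁻¹ • H (e.symm ((2 : ℝ) • x)))‖ = 1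
    rw [LinearIsometryEquiv.norm_map, norm_smul, norm_inv, norm_norm]
    exact inv_mul_cancel₀ (norm_ne_zero_iff.2 (hH0 _))

/-- The image of a sphere under a differentiable map between spaces of the same dimension
does not cover a ball. -/
theorem avoid (psi : V → E) (hpsi : Differentiable ℝ psi)
    (hdim : Module.finrank ℝ E = Module.finrank ℝ V) (v : V) (M : ℝ) (hM : 0 < M) (δ : ℝ)
    (hδ : 0 < δ) : ∃ w : E, ‖w‖ < δ ∧ ∀ y, ‖y - v‖ = M → psi y ≠ w := by
  obtain ⟨L⟩ : Nonempty (E ≃L[ℝ] V) := ⟨ContinuousLinearEquiv.ofFinrankEq hdim⟩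
  let _ : MeasurableSpace V := borel V
  have _ : BorelSpace V := ⟨rfl⟩
  have h1 : (Measure.addHaar : Measure V) ((fun y => L (psi y)) '' sphere v M) = 0 :=
    addHaar_image_eq_zero_of_differentiableOn_of_addHaar_eq_zero _
      ((L.differentiable.comp hpsi).differentiableOn)
      (Measure.addHaar_sphere_of_ne_zero _ v hM.ne')
  have h2 : IsOpen (L.symm ⁻¹' ball (0 : E) δ) := isOpen_ball.preimage L.symm.continuous
  have h3 : (L.symm ⁻¹' ball (0 : E) δ).Nonempty := ⟨0, by simp [hδ]⟩
  have h4 := h2.measure_pos (Measure.addHaar : Measure V) h3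
  obtain ⟨y, hy, hy2⟩ : ∃ y ∈ L.symm ⁻¹' ball (0 : E) δ,
      y ∉ (fun y => L (psi y)) '' sphere v M := by
    by_contra hcon
    push Not at hcon
    exact h4.ne' (measure_mono_null hcon h1)
  refine ⟨L.symm y, by simpa using hy, fun x hx hxe => hy2 ⟨x, by simpa [dist_eq_norm] using hx, ?_⟩⟩
  show L (psi x) = y
  rw [hxe, L.apply_symm_apply]

/-- The surjectivity lemma. -/
theorem onto (f : E → V) (psi : V → E) (hf : ContinuousOn f (ball 0 1))
    (hprop : ∀ M : ℝ, ∃ r < 1, ∀ z, ‖z‖ < 1 → ‖f z‖ ≤ M → ‖z‖ ≤ r)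
    (hpsi : Differentiable ℝ psi)
    (hclose : ∀ ε > 0, ∃ r < 1, ∀ z, r < ‖z‖ → ‖z‖ < 1 → ‖psi (f z) - z‖ < ε)
    (hdim : Module.finrank ℝ E = Module.finrank ℝ V) (v : V) : ∃ z, ‖z‖ < 1 ∧ f z = v := by
  by_contra hcon
  push Not at hcon
  obtain ⟨r1, hr1, h1⟩ := hclose (1 / 4) (by norm_num)
  obtain ⟨r2, hr2d⟩ : ∃ r2, r2 = max r1 (3 / 4) := ⟨_, rfl⟩
  have hr2 : r2 < 1 := by rw [hr2d]; exact max_lt hr1 (by norm_num)
  have hr2a : r1 ≤ r2 := by rw [hr2d]; exact le_max_left _ _
  have hr2b : 3 / 4 ≤ r2 := by rw [hr2d]; exact le_max_right _ _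
  have hK : IsCompact (closedBall (0 : E) r2) := isCompact_closedBall _ _
  have hKs : closedBall (0 : E) r2 ⊆ ball 0 1 := closedBall_subset_ball hr2
  obtain ⟨M0, hM0⟩ : ∃ M0 : ℝ, ∀ z ∈ closedBall (0 : E) r2, ‖f z - v‖ ≤ M0 := by
    have h2 : ContinuousOn (fun z => f z - v) (closedBall (0 : E) r2) :=
      (hf.mono hKs).sub continuousOn_const
    obtain ⟨C, hC⟩ := hK.exists_bound_of_continuousOn h2
    exact ⟨C, hC⟩
  obtain ⟨M, hMd⟩ : ∃ M, M = max M0 0 + 1 := ⟨_, rfl⟩
  have hM : 0 < M := by rw [hMd]; have := le_max_right M0 0; linarith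
  have hM1 : M0 < M := by rw [hMd]; have := le_max_left M0 0; linarith
  obtain ⟨w, hw, hw2⟩ := avoid psi hpsi hdim v M hM (1 / 4) (by norm_num)
  -- the radial push
  obtain ⟨push, hpush⟩ : ∃ push : V → V,
      push = fun y => v + (max 1 (M / ‖y - v‖)) • (y - v) := ⟨_, rfl⟩
  have hp1 : ∀ y, M ≤ ‖y - v‖ → push y = y := by
    intro y hy
    rw [hpush]
    have h3 : M / ‖y - v‖ ≤ 1 := div_le_one_of_le₀ hy (norm_nonneg _)
    show v + (max 1 (M / ‖y - v‖)) • (y - v) = y
    rw [max_eq_left h3, one_smul, add_sub_cancel]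
  have hp2 : ∀ y, y ≠ v → ‖y - v‖ ≤ M → ‖push y - v‖ = M := by
    intro y hy hy2
    have h4 : 0 < ‖y - v‖ := norm_pos_iff.2 (sub_ne_zero.2 hy)
    rw [hpush]
    have h3 : 1 ≤ M / ‖y - v‖ := (one_le_div h4).2 hy2
    show ‖v + (max 1 (M / ‖y - v‖)) • (y - v) - v‖ = M
    rw [max_eq_right h3, add_sub_cancel_left, norm_smul, Real.norm_of_nonneg (by positivity)]
    field_simp
  have hp3 : ContinuousOn push {y | y ≠ v} := by
    rw [hpush]
    refine continuousOn_const.add (ContinuousOn.smul ?_ (continuousOn_id.sub continuousOn_const))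
    refine continuousOn_const.sup (continuousOn_const.div
      ((continuousOn_id.sub continuousOn_const).norm) ?_)
    intro y hy
    exact norm_ne_zero_iff.2 (sub_ne_zero.2 hy)
  classical
  obtain ⟨h, hh⟩ : ∃ h : E → E, h = fun z => if ‖z‖ < 1 then psi (push (f z)) else z :=
    ⟨_, rfl⟩
  have hin : ∀ z, ‖z‖ < 1 → h z = psi (push (f z)) := by
    intro z hz; rw [hh]; exact if_pos hz
  have hout : ∀ z, 1 ≤ ‖z‖ → h z = z := by
    intro z hz; rw [hh]; exact if_neg (not_lt.2 hz)
  have hcont : Continuous h := by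
    rw [continuous_iff_continuousAt]
    intro z0
    rcases lt_trichotomy ‖z0‖ 1 with hz | hz | hz
    · have h5 : ContinuousOn (fun z => psi (push (f z))) (ball 0 1) :=
        hpsi.continuous.comp_continuousOn (hp3.comp hf fun z hz => hcon z (by simpa using hz))
      have h6 : ContinuousAt (fun z => psi (push (f z))) z0 :=
        h5.continuousAt (isOpen_ball.mem_nhds (by simpa using hz))
      refine h6.congr ?_
      filter_upwards [isOpen_ball.mem_nhds (show z0 ∈ ball (0 : E) 1 by simpa using hz)] with z hz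
      exact (hin z (by simpa using hz)).symm
    · rw [Metric.continuousAt_iff]
      intro ε hε
      obtain ⟨r3, hr3, h7⟩ := hclose (ε / 2) (by linarith)
      obtain ⟨r4, hr4, h8⟩ := hprop (M + ‖v‖)
      refine ⟨min (ε / 2) (min (1 - r3) (1 - r4)),
        lt_min (by linarith) (lt_min (by linarith) (by linarith)), ?_⟩
      intro z hz'
      rw [hout z0 hz.ge]
      rw [dist_eq_norm] at hz'
      have e1 := lt_of_lt_of_le hz' (min_le_left _ _)
      have e2 := lt_of_lt_of_le hz' ((min_le_right _ _).trans (min_le_left _ _))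
      have e3 := lt_of_lt_of_le hz' ((min_le_right _ _).trans (min_le_right _ _))
      rcases lt_or_ge ‖z‖ 1 with hz1 | hz1
      · have h9 : 1 ≤ ‖z‖ + ‖z - z0‖ := by
          have := norm_sub_le z (z - z0)
          rw [sub_sub_cancel, hz] at this
          linarith
        have h10 : M ≤ ‖f z - v‖ := by
          by_contra hlt
          push Not at hlt
          have h11 : ‖f z‖ ≤ M + ‖v‖ := by
            have := norm_add_le (f z - v) v
            rw [sub_add_cancel] at this
            linarith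
          have := h8 z hz1 h11
          linarith
        rw [hin z hz1, hp1 _ h10, dist_eq_norm]
        have h12 := h7 z (by linarith) hz1
        have h13 := norm_add_le (psi (f z) - z) (z - z0)
        rw [sub_add_sub_cancel] at h13
        linarith
      · rw [hout z hz1, dist_eq_norm]
        linarith
    · refine continuousAt_id.congr ?_
      have h5 : IsOpen {z : E | 1 < ‖z‖} := isOpen_lt continuous_const continuous_norm
      filter_upwards [h5.mem_nhds hz] with z hz
      exact (hout z (le_of_lt hz)).symm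
  obtain ⟨z, hz⟩ := hits h hcont hout w (by linarith)
  rcases lt_or_ge ‖z‖ 1 with hz1 | hz1
  · rw [hin z hz1] at hz
    rcases le_or_gt M ‖f z - v‖ with h5 | h5
    · rw [hp1 _ h5] at hz
      have h6 : ‖z‖ ≤ r2 := by
        by_contra h7
        push Not at h7
        have h8 := h1 z (by linarith) hz1
        rw [hz] at h8
        have h9 := norm_sub_le z (z - w)
        rw [sub_sub_cancel, norm_sub_rev z w] at h9
        have h10 := norm_add_le (z - w) w
        rw [sub_add_cancel, norm_sub_rev z w] at h10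
        linarith
      have h7 := hM0 z (by simpa using h6)
      linarith
    · exact hw2 _ (hp2 _ (hcon z hz1) h5.le) hz
  · rw [hout z hz1] at hz
    rw [hz] at hz1
    linarith

end top

end Pool.Agent.MPd01a95.E0
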