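import Mathlib
import Pool.Agent.Lib.MP_d01a95_gt_P.E0Top
import Pool.Agent.Lib.MP_d01a95_gt_P.E0Sel

set_option autoImplicit false

open Matrix Metric Set Filter Topology
open scoped Manifold ContDiff

namespace Pool.Agent.MPd01a95.E0

theorem fin_lt_one {α : Type} (S : Set α) (hS : S.Finite) (r : α → ℝ) (hr : ∀ a, r a < 1) :
    ∃ r0 < 1, ∀ a ∈ S, r a ≤ r0 := by
  rcases S.eq_empty_or_nonempty with h | h
  · exact ⟨0, zero_lt_one, fun a ha => by rw [h] at ha; exact absurd ha (notMem_empty a)⟩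
  · obtain ⟨a0, _, ha0⟩ := Set.exists_max_image S r hS h
    exact ⟨r a0, hr a0, ha0⟩

theorem fin_bdd {α : Type} (S : Set α) (hS : S.Finite) (r : α → ℝ) :
    ∃ r0 : ℝ, 0 < r0 ∧ ∀ a ∈ S, r a ≤ r0 := by
  obtain ⟨b, hb⟩ := (hS.image r).bddAbove
  exact ⟨max b 1, lt_of_lt_of_le zero_lt_one (le_max_right _ _),
    fun a ha => (hb ⟨a, ha, rfl⟩).trans (le_max_left _ _)⟩

section main

variable {ι : Type} [Fintype ι] [DecidableEq ι] {G : Type} [Group G]
variable {E : Type} [NormedAddCommGroup E] [InnerProductSpace ℂ E] [FiniteDimensional ℂ E]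

theorem cocompact_abs (ρ : G →* Matrix (ι ⊕ Fin 2) (ι ⊕ Fin 2) ℝ)
    (hρ : ∀ g, (ρ g)ᵀ * J ι * ρ g = J ι) (hP : PropAdS ρ) (zz : G → E)
    (hz : ∀ g, ‖zz g‖ < 1)
    (hA : ∀ C : ℝ, {h : G | ∃ g, Near C (zz g) (zz (g * h))}.Finite)
    (hB : ∀ h : G, ∃ C : ℝ, ∀ g, Near C (zz g) (zz (g * h))) (C0 : ℝ) (hC0 : 0 < C0)
    (hcov : ∀ z : E, ‖z‖ < 1 → ∃ g, Near C0 (zz g) z)
    (hdim : Fintype.card ι = 2 * Module.finrank ℂ E) :
    ∃ M : ℝ, ∀ x : ι ⊕ Fin 2 → ℝ, nq x = 1 → ∃ g, sq (ρ g *ᵥ x) ≤ M := by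
  classical
  obtain ⟨C1, hC1, T, hTc, hT⟩ := exists_T ρ hρ zz hz hA C0 hC0 hcov
  refine ⟨C1, fun x hx => ?_⟩
  -- coordinates of x
  obtain ⟨v0, hv0⟩ : ∃ v0 : ι → ℝ, v0 = fun i => x (Sum.inl i) := ⟨_, rfl⟩
  obtain ⟨w0, hw0⟩ : ∃ w0 : Fin 2 → ℝ, w0 = fun i => x (Sum.inr i) := ⟨_, rfl⟩
  have hx0 : x = Sum.elim v0 w0 := by
    rw [hv0, hw0]; funext i; rcases i with i | i <;> rfl
  rw [hx0, nq_elim] at hx
  have hw0pos : 0 < sq w0 := by have := sq_nn v0; linarith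
  obtain ⟨e, he⟩ : ∃ e : Fin 2 → ℝ, e = (Real.sqrt (sq w0))⁻¹ • w0 := ⟨_, rfl⟩
  have hs0 : 0 < Real.sqrt (sq w0) := Real.sqrt_pos.2 hw0pos
  have he1 : sq e = 1 := by
    rw [he, sq_smul, inv_pow, Real.sq_sqrt hw0pos.le, inv_mul_cancel₀ hw0pos.ne']
  obtain ⟨X, hX⟩ : ∃ X : (ι → ℝ) → (ι ⊕ Fin 2 → ℝ),
      X = fun v => Sum.elim v (Real.sqrt (1 + sq v) • e) := ⟨_, rfl⟩
  have hXv : ∀ v, X v = Sum.elim v (Real.sqrt (1 + sq v) • e) := fun v => by rw [hX]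
  have hXnq : ∀ v, nq (X v) = 1 := by
    intro v
    have h1 := sq_nn v
    rw [hXv, nq_elim, sq_smul, he1, Real.sq_sqrt (by linarith)]
    ring
  have hXsq : ∀ v, sq (X v) = 1 + 2 * sq v := by
    intro v
    have h1 := sq_nn v
    rw [hXv, sq_elim, sq_smul, he1, Real.sq_sqrt (by linarith)]
    ring
  have hXx : X v0 = x := by
    rw [hXv, hx0, he, smul_smul]
    have h1 : 1 + sq v0 = sq w0 := by linarith
    rw [h1, mul_inv_cancel₀ hs0.ne', one_smul]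
  have hXc : Continuous X := by
    rw [hX]
    refine continuous_pi fun i => ?_
    rcases i with i | i
    · exact continuous_apply i
    · show Continuous fun v : ι → ℝ => (Real.sqrt (1 + sq v) • e) i
      have h1 : Continuous fun v : ι → ℝ => Real.sqrt (1 + sq v) :=
        (continuous_const.add continuous_sq).sqrt
      simp only [Pi.smul_apply, smul_eq_mul]
      exact h1.mul continuous_const
  -- the map f
  obtain ⟨f, hf⟩ : ∃ f : E → (ι → ℝ),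
      f = fun z => (Real.sqrt (1 - sq (T z *ᵥ e)))⁻¹ • (T z *ᵥ e) := ⟨_, rfl⟩
  have hfz : ∀ z, f z = (Real.sqrt (1 - sq (T z *ᵥ e)))⁻¹ • (T z *ᵥ e) := fun z => by rw [hf]
  have hlt : ∀ z : E, ‖z‖ < 1 → 0 < 1 - sq (T z *ᵥ e) := by
    intro z hz1
    obtain ⟨g, hg⟩ := hcov z hz1
    have h1 := hT z hz1 g hg e
    have h2 := sq_nn (ρ g⁻¹ *ᵥ Sum.elim (T z *ᵥ e) e)
    rw [nq_elim, he1] at h1
    have h3 : 0 ≤ 1 - sq (T z *ᵥ e) := by
      by_contra hneg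
      push Not at hneg
      have := mul_neg_of_pos_of_neg hC1 hneg
      linarith
    rcases h3.lt_or_eq with h4 | h4
    · exact h4
    · exfalso
      rw [← h4, mul_zero] at h1
      have h5 : sq (ρ g⁻¹ *ᵥ Sum.elim (T z *ᵥ e) e) = 0 := le_antisymm h1 h2
      have h6 : ρ g⁻¹ *ᵥ Sum.elim (T z *ᵥ e) e = 0 := by
        funext i
        have h7 := abs_le_sq (ρ g⁻¹ *ᵥ Sum.elim (T z *ᵥ e) e) i
        rw [h5, Real.sqrt_zero] at h7
        exact abs_nonpos_iff.1 h7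
      have h8 : Sum.elim (T z *ᵥ e) e = ρ g *ᵥ (ρ g⁻¹ *ᵥ Sum.elim (T z *ᵥ e) e) := by
        rw [Matrix.mulVec_mulVec, ← map_mul, mul_inv_cancel, map_one, Matrix.one_mulVec]
      rw [h6, Matrix.mulVec_zero] at h8
      have h9 : e = 0 := by
        funext i
        exact congrFun h8 (Sum.inr i)
      rw [h9] at he1
      simp [sq] at he1
  have hXf : ∀ z : E, ‖z‖ < 1 →
      X (f z) = (Real.sqrt (1 - sq (T z *ᵥ e)))⁻¹ • Sum.elim (T z *ᵥ e) e := by
    intro z hz1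
    have h1 := hlt z hz1
    have h2 : 0 < Real.sqrt (1 - sq (T z *ᵥ e)) := Real.sqrt_pos.2 h1
    have h3 : 1 + sq (f z) = ((Real.sqrt (1 - sq (T z *ᵥ e)))⁻¹) ^ 2 := by
      rw [hfz, sq_smul, inv_pow, Real.sq_sqrt h1.le]
      field_simp
      ring
    rw [hXv, h3, Real.sqrt_sq (by positivity), hfz]
    funext i
    rcases i with i | i <;> rfl
  have key : ∀ z : E, ‖z‖ < 1 → ∀ g, Near C0 (zz g) z → sq (ρ g⁻¹ *ᵥ X (f z)) ≤ C1 := by
    intro z hz1 g hg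
    have h1 := hT z hz1 g hg e
    have h2 := hXnq (f z)
    rw [hXf z hz1] at h2 ⊢
    rw [PropAAux.nq_smul] at h2
    rw [Matrix.mulVec_smul, sq_smul]
    have h3 := mul_le_mul_of_nonneg_left h1 (sq_nonneg (Real.sqrt (1 - sq (T z *ᵥ e)))⁻¹)
    have h4 : ((Real.sqrt (1 - sq (T z *ᵥ e)))⁻¹) ^ 2 *
        (C1 * nq (Sum.elim (T z *ᵥ e) e)) = C1 * (((Real.sqrt (1 - sq (T z *ᵥ e)))⁻¹) ^ 2 *
        nq (Sum.elim (T z *ᵥ e) e)) := by ring
    rw [h4, h2, mul_one] at h3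
    exact h3
  -- finiteness
  obtain ⟨F, hF⟩ : ∃ F : ℝ → Set G, F = fun R =>
      {g | ∃ y ∈ PropAAux.Kc ι (Real.sqrt R), ρ g *ᵥ y ∈ PropAAux.Kc ι (Real.sqrt R)} :=
    ⟨_, rfl⟩
  have hFf : ∀ R, (F R).Finite := by
    intro R
    rw [hF]
    exact hP _ (PropAAux.isCompact_Kc _) (fun y hy => hy.1)
  have hFm : ∀ (R : ℝ) (g : G) (y : ι ⊕ Fin 2 → ℝ), nq y = 1 → sq y ≤ R →
      sq (ρ g *ᵥ y) ≤ R → g ∈ F R := by
    intro R g y h1 h2 h3
    rw [hF]
    refine ⟨y, ⟨h1, fun i => (abs_le_sq y i).trans (Real.sqrt_le_sqrt h2)⟩, ?_, fun i =>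
      (abs_le_sq _ i).trans (Real.sqrt_le_sqrt h3)⟩
    rw [PropAAux.nq_mulVec _ (hρ g), h1]
  have hinv : ∀ (g : G) (y : ι ⊕ Fin 2 → ℝ), ρ g *ᵥ (ρ g⁻¹ *ᵥ y) = y := by
    intro g y
    rw [Matrix.mulVec_mulVec, ← map_mul, mul_inv_cancel, map_one, Matrix.one_mulVec]
  -- properness of f
  have hprop : ∀ M : ℝ, ∃ r < 1, ∀ z : E, ‖z‖ < 1 → ‖f z‖ ≤ M → ‖z‖ ≤ r := by
    intro M
    obtain ⟨R, hR⟩ : ∃ R, R = max C1 (1 + 2 * (Fintype.card ι * M ^ 2)) := ⟨_, rfl⟩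
    have hnb : ∀ g : G, ∃ r : ℝ, r < 1 ∧ ∀ z : E, ‖z‖ < 1 → Near C0 (zz g) z → ‖z‖ ≤ r := by
      intro g
      obtain ⟨r, hr1, hr2⟩ := near_bound (C := C0) (zz g) (hz g)
      exact ⟨r, hr1, hr2⟩
    choose r hr1 hr2 using hnb
    obtain ⟨r0, hr0, hr0b⟩ := fin_lt_one (F R) (hFf R) r hr1
    refine ⟨r0, hr0, fun z hz1 hfM => ?_⟩
    obtain ⟨g, hg⟩ := hcov z hz1
    have h1 := key z hz1 g hg
    have h2 : sq (f z) ≤ Fintype.card ι * M ^ 2 :=
      sq_le_of_abs _ _ fun i => (norm_le_pi_norm (f z) i).trans hfM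
    have h3 : g ∈ F R := by
      refine hFm R g (ρ g⁻¹ *ᵥ X (f z)) ?_ ?_ ?_
      · rw [PropAAux.nq_mulVec _ (hρ _), hXnq]
      · exact h1.trans (by rw [hR]; exact le_max_left _ _)
      · rw [hinv, hXsq, hR]
        refine le_trans ?_ (le_max_right _ _)
        linarith
    exact (hr2 g z hz1 hg).trans (hr0b g h3)
  -- continuity of f
  have hfc : ContinuousOn f (ball 0 1) := by
    rw [hf]
    have h1 : ContinuousOn (fun z => T z *ᵥ e) (ball (0 : E) 1) := by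
      have h2 : Continuous fun A : Matrix ι (Fin 2) ℝ => A *ᵥ e :=
        continuous_id.matrix_mulVec continuous_const
      exact h2.comp_continuousOn hTc
    have h3 : ContinuousOn (fun z => 1 - sq (T z *ᵥ e)) (ball (0 : E) 1) :=
      continuousOn_const.sub (continuous_sq.comp_continuousOn h1)
    refine ContinuousOn.smul (ContinuousOn.inv₀ (h3.sqrt) ?_) h1
    intro z hzb
    exact (Real.sqrt_pos.2 (hlt z (mem_ball_zero_iff.1 hzb))).ne'
  -- the constant for the second selection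
  obtain ⟨Cb, hCb⟩ : ∃ Cb : G → ℝ, ∀ h g, Near (Cb h) (zz g) (zz (g * h)) := by
    choose Cb hCb using hB
    exact ⟨Cb, hCb⟩
  obtain ⟨C3, hC3, hC3b⟩ := fin_bdd (F (C1 + 1)) (hFf _) Cb
  obtain ⟨C2, hC2⟩ : ∃ C2, C2 = 256 * (C0 * (256 * (C3 * C0))) := ⟨_, rfl⟩
  have hC2p : 0 < C2 := by rw [hC2]; positivity
  -- the second selection
  obtain ⟨psi, hpsiD, hpsi⟩ : ∃ psi : (ι → ℝ) → E, Differentiable ℝ psi ∧
      ∀ v, ∀ z : E, ‖z‖ < 1 → f z = v → Near C2 z (psi v) := by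
    have hconv : ∀ v : ι → ℝ, Convex ℝ {w : E | ∀ z : E, ‖z‖ < 1 → f z = v → Near C2 z w} := by
      intro v
      have h1 : {w : E | ∀ z : E, ‖z‖ < 1 → f z = v → Near C2 z w} =
          ⋂ (z : E) (_ : ‖z‖ < 1) (_ : f z = v), {w : E | Near C2 z w} := by
        ext w
        simp only [mem_ofPred_eq, mem_iInter]
      rw [h1]
      exact convex_iInter fun z => convex_iInter fun hz1 => convex_iInter fun _ =>
        near_convex hC2p.le z hz1
    have hloc : ∀ v1 : ι → ℝ, ∃ c : E, ∀ᶠ v in 𝓝 v1,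
        c ∈ {w : E | ∀ z : E, ‖z‖ < 1 → f z = v → Near C2 z w} := by
      intro v1
      by_cases hv1 : ∃ z1 : E, ‖z1‖ < 1 ∧ f z1 = v1
      · obtain ⟨z1, hz1, hfz1⟩ := hv1
        obtain ⟨g1, hg1⟩ := hcov z1 hz1
        refine ⟨z1, ?_⟩
        have h1 := key z1 hz1 g1 hg1
        rw [hfz1] at h1
        have h2 : Continuous fun v => sq (ρ g1⁻¹ *ᵥ X v) :=
          continuous_sq.comp (Continuous.matrix_mulVec continuous_const hXc)
        have h3 : ∀ᶠ v in 𝓝 v1, sq (ρ g1⁻¹ *ᵥ X v) < C1 + 1 :=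
          h2.continuousAt.eventually_lt continuousAt_const (by linarith)
        filter_upwards [h3] with v hv z hz2 hfz2
        obtain ⟨g, hg⟩ := hcov z hz2
        have h4 := key z hz2 g hg
        rw [hfz2] at h4
        have h5 : g1⁻¹ * g ∈ F (C1 + 1) := by
          refine hFm _ _ (ρ g⁻¹ *ᵥ X v) ?_ ?_ ?_
          · rw [PropAAux.nq_mulVec _ (hρ _), hXnq]
          · linarith
          · rw [map_mul, ← Matrix.mulVec_mulVec, hinv]
            exact hv.le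
        have h6 : Near C3 (zz g1) (zz g) := by
          have h7 := hCb (g1⁻¹ * g) g1
          rw [mul_inv_cancel_left] at h7
          exact near_mono (hC3b _ h5) (hz _) (hz _) h7
        have h8 : Near (256 * (C3 * C0)) (zz g1) z :=
          near_trans hC3.le hC0.le (hz _) hz2 (hz _) h6 hg
        have h9 : Near (256 * (C0 * (256 * (C3 * C0)))) z1 z :=
          near_trans hC0.le (by positivity) hz1 hz2 (hz g1) (near_symm hg1) h8
        rw [← hC2] at h9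
        exact near_symm h9
      · push Not at hv1
        refine ⟨0, ?_⟩
        obtain ⟨r, hr, hrb⟩ := hprop (‖v1‖ + 1)
        have h1 : IsCompact (f '' closedBall (0 : E) r) := by
          have : ProperSpace E := FiniteDimensional.proper ℂ E
          exact (isCompact_closedBall (0 : E) r).image_of_continuousOn
            (hfc.mono (closedBall_subset_ball hr))
        have h2 : v1 ∉ f '' closedBall (0 : E) r := by
          rintro ⟨z, hzr, hzv⟩
          exact hv1 z (lt_of_le_of_lt (mem_closedBall_zero_iff.1 hzr) hr) hzv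
        have h3 : ∀ᶠ v in 𝓝 v1, v ∉ f '' closedBall (0 : E) r :=
          h1.isClosed.isOpen_compl.mem_nhds h2
        have h4 : ∀ᶠ v in 𝓝 v1, ‖v‖ < ‖v1‖ + 1 :=
          continuous_norm.continuousAt.eventually_lt continuousAt_const (by linarith)
        filter_upwards [h3, h4] with v hv3 hv4 z hz2 hfz2
        exfalso
        refine hv3 ⟨z, ?_, hfz2⟩
        rw [mem_closedBall_zero_iff]
        exact hrb z hz2 (by rw [hfz2]; exact hv4.le)
    obtain ⟨g, hg⟩ := exists_contMDiffMap_forall_mem_convex_of_local_const (n := ⊤)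
      𝓘(ℝ, ι → ℝ) (F := E) hconv hloc
    refine ⟨g, ?_, fun v => hg v⟩
    have h1 : ContDiff ℝ ∞ g := g.contMDiff.contDiff
    exact h1.differentiable (by simp)
  have hclose : ∀ ε > 0, ∃ r < 1, ∀ z : E, r < ‖z‖ → ‖z‖ < 1 → ‖psi (f z) - z‖ < ε := by
    intro ε hε
    refine ⟨1 - ε ^ 4 / (16 * C2), ?_, ?_⟩
    · have : 0 < ε ^ 4 / (16 * C2) := by positivity
      linarith
    · intro z hr hz1
      have h1 := hpsi (f z) z hz1 rfl
      have h2 := near_close hz1 (near_lt_one hC2p hz1 h1) h1 hC2p.le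
      have h3 : 1 - ‖z‖ < ε ^ 4 / (16 * C2) := by linarith
      rw [lt_div_iff₀ (by positivity)] at h3
      have h4 : ‖psi (f z) - z‖ ^ 4 < ε ^ 4 := by
        refine lt_of_le_of_lt h2 ?_
        nlinarith [norm_nonneg z, mul_pos hC2p (by linarith : 0 < 1 - ‖z‖)]
      exact lt_of_pow_lt_pow_left₀ 4 hε.le h4
  have hfr : Module.finrank ℝ E = Module.finrank ℝ (ι → ℝ) := by
    rw [finrank_real_of_complex, Module.finrank_pi, hdim]
  have : FiniteDimensional ℝ E := FiniteDimensional.complexToReal E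
  let _ : InnerProductSpace ℝ E := InnerProductSpace.rclikeToReal ℂ E
  obtain ⟨z, hz1, hzv⟩ := onto f psi hfc hprop hpsiD hclose hfr v0
  obtain ⟨g, hg⟩ := hcov z hz1
  have h1 := key z hz1 g hg
  rw [hzv, hXx] at h1
  exact ⟨g⁻¹, h1⟩

end main

end Pool.Agent.MPd01a95.E0
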